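import Mathlib
import Pool.Agent.W16.GT.Main

namespace Pool.Agent.Results.MP_7aad9f_nt.CountGoodTriples

open Filter Topology

/-- the radical `R(m)`: the product of the distinct primes dividing `m` -/
def R (m : ℕ) : ℕ := ∏ p ∈ m.primeFactors, p

/-- Let `K, K' ≥ 0` and `K + K' < √(8/9) * e ^ (59/30) = 6.738…`. For every large `X` there are
at least `exp (K' * √(log X) / log (log X))` triples of coprime positive integers `a < b`,
`c = a + b ≤ X` with `c > R (abc) * exp (K * √(log X) / log (log X))`. -/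
theorem result (K K' : ℝ) (hK : 0 ≤ K) (hK' : 0 ≤ K')
    (h : K + K' < √(8 / 9) * Real.exp (59 / 30)) :
    ∃ X₀ : ℝ, ∀ X : ℝ, X₀ ≤ X →
      Real.exp (K' * √(Real.log X) / Real.log (Real.log X)) ≤
        ({t : ℕ × ℕ × ℕ | 0 < t.1 ∧ t.1 < t.2.1 ∧ Nat.Coprime t.1 t.2.1 ∧
          t.1 + t.2.1 = t.2.2 ∧ (t.2.2 : ℝ) ≤ X ∧
          (R (t.1 * t.2.1 * t.2.2) : ℝ) *
            Real.exp (K * √(Real.log X) / Real.log (Real.log X)) < t.2.2}.ncard : ℝ) := by
  set δ : ℝ := (√(8 / 9) * Real.exp (59 / 30) - (K + K')) / 4 with hδ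
  have hδ0 : 0 < δ := by rw [hδ]; linarith
  have hmany := Pool.Agent.W16.GT.many (K := K + δ) (K' := K' + δ) (by linarith) (by linarith)
    (by linarith)
  have hX := Real.tendsto_log_atTop.eventually (hmany.and (eventually_ge_atTop (Real.exp 1)))
  obtain ⟨X₀, hX₀⟩ := eventually_atTop.mp (hX.and (eventually_gt_atTop 0))
  refine ⟨X₀, fun X hXX => ?_⟩
  obtain ⟨⟨⟨T, hT1, hT2⟩, he⟩, hXpos⟩ := hX₀ X hXX
  have hY0 : 0 < Real.log X := lt_of_lt_of_le (Real.exp_pos 1) he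
  have hll : 0 < Real.log (Real.log X) := by
    apply Real.log_pos
    have : (1 : ℝ) < Real.exp 1 := Real.one_lt_exp_iff.mpr one_pos
    linarith
  have hs : 0 ≤ √(Real.log X) := Real.sqrt_nonneg _
  have h1 : Real.exp (K' * √(Real.log X) / Real.log (Real.log X)) ≤
      Real.exp ((K' + δ) * √(Real.log X) / Real.log (Real.log X)) := by
    apply Real.exp_le_exp.mpr
    gcongr
    linarith
  refine h1.trans (hT1.trans ?_)
  rw [← Set.ncard_coe_finset T]
  have hfin : {t : ℕ × ℕ × ℕ | 0 < t.1 ∧ t.1 < t.2.1 ∧ Nat.Coprime t.1 t.2.1 ∧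
          t.1 + t.2.1 = t.2.2 ∧ (t.2.2 : ℝ) ≤ X ∧
          (R (t.1 * t.2.1 * t.2.2) : ℝ) *
            Real.exp (K * √(Real.log X) / Real.log (Real.log X)) < t.2.2}.Finite := by
    refine Set.Finite.subset (Finset.finite_toSet
      ((Finset.range (⌊X⌋₊ + 1)) ×ˢ (Finset.range (⌊X⌋₊ + 1)) ×ˢ (Finset.range (⌊X⌋₊ + 1)))) ?_
    rintro ⟨a, b, c⟩ ⟨-, -, -, h5, h6, -⟩
    simp only at h5 h6
    have h7 : c ≤ ⌊X⌋₊ := Nat.le_floor h6
    simp only [Finset.coe_product, Finset.coe_range, Set.mem_prod, Set.mem_Iio]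
    omega
  have hsub : (T : Set (ℕ × ℕ × ℕ)) ⊆ {t : ℕ × ℕ × ℕ | 0 < t.1 ∧ t.1 < t.2.1 ∧
          Nat.Coprime t.1 t.2.1 ∧ t.1 + t.2.1 = t.2.2 ∧ (t.2.2 : ℝ) ≤ X ∧
          (R (t.1 * t.2.1 * t.2.2) : ℝ) *
            Real.exp (K * √(Real.log X) / Real.log (Real.log X)) < t.2.2} := by
    intro t ht
    obtain ⟨⟨ha, hb, hc, habc, hcop, -, -⟩, hab, hle, hlt⟩ := hT2 t ht
    have hc0 : (0 : ℝ) < t.2.2 := by exact_mod_cast hc
    refine ⟨ha, hab, hcop, habc, (Real.log_le_log_iff hc0 hXpos).mp hle, ?_⟩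
    have hR0 : 0 < Pool.Agent.H390R2.rad (t.1 * t.2.1 * t.2.2) := by
      refine Finset.prod_pos fun p hp => ?_
      exact (Nat.prime_of_mem_primeFactors hp).pos
    have hR : (0 : ℝ) < (R (t.1 * t.2.1 * t.2.2) : ℝ) := by exact_mod_cast hR0
    have h2 : K * √(Real.log X) / Real.log (Real.log X) ≤
        (K + δ) * √(Real.log X) / Real.log (Real.log X) := by
      gcongr
      linarith
    have h3 : K * √(Real.log X) / Real.log (Real.log X) <
        Real.log t.2.2 - Real.log (R (t.1 * t.2.1 * t.2.2)) := lt_of_le_of_lt h2 hlt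
    calc (R (t.1 * t.2.1 * t.2.2) : ℝ) * Real.exp (K * √(Real.log X) / Real.log (Real.log X))
        < (R (t.1 * t.2.1 * t.2.2) : ℝ) *
          Real.exp (Real.log t.2.2 - Real.log (R (t.1 * t.2.1 * t.2.2))) := by
          gcongr
      _ = t.2.2 := by
          rw [Real.exp_sub, Real.exp_log hc0, Real.exp_log hR]
          field_simp
  exact_mod_cast Set.ncard_le_ncard hsub hfin

end Pool.Agent.Results.MP_7aad9f_nt.CountGoodTriples
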