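import Mathlib
import Pool.Agent.W221.ABC.Main7

namespace Pool.Agent.Results.MP_7aad9f_nt.ExceptionsEveryExponent

/-- the radical `R(m)`: the product of the distinct primes dividing `m` -/
def R (m : ℕ) : ℕ := ∏ p ∈ m.primeFactors, p

/-- the triples `(a, b, c)` of coprime positive integers with `a + b = c ≤ X` and
`R (abc) ≤ B * c ^ lam` -/
def Exceptions (B lam : ℝ) (X : ℕ) : Set (ℕ × ℕ × ℕ) :=
  {t | 0 < t.1 ∧ 0 < t.2.1 ∧ Nat.Coprime t.1 t.2.1 ∧ t.1 + t.2.1 = t.2.2 ∧ t.2.2 ≤ X ∧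
    (R (t.1 * t.2.1 * t.2.2) : ℝ) ≤ B * (t.2.2 : ℝ) ^ lam}

/-- the exponent, a continuous piecewise linear function -/
noncomputable def F (lam : ℝ) : ℝ :=
  if lam ≤ 2 / 3 then 4 * lam / 7
  else if lam ≤ 1 then (13 * lam + 2) / 28
  else if lam ≤ 3 / 2 then 5 * (10 * lam - 1) / 84
  else if lam ≤ 16 / 9 then (9 * lam - 1) / 15
  else if lam ≤ 2 then 1
  else lam - 1

/-- For all real `lam > 0`, `B` and `δ > 0` there is `C` such that for every `X ≥ 1` at most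
`C * X ^ (F lam + δ)` triples `(a, b, c)` of coprime positive integers with `a + b = c ≤ X` have
`R (abc) ≤ B * c ^ lam`. For `lam = 1` the exponent is `15 / 28`. -/
theorem result (lam B δ : ℝ) (hlam : 0 < lam) (hδ : 0 < δ) :
    ∃ C : ℝ, ∀ X : ℕ, 1 ≤ X →
      (Exceptions B lam X).Finite ∧
      ((Exceptions B lam X).ncard : ℝ) ≤ C * (X : ℝ) ^ (F lam + δ) := by
  obtain ⟨C, hC⟩ := Pool.Agent.W221.ABC7.count_FxB B lam δ hlam hδ
  exact ⟨C, fun X hX => ⟨Pool.Agent.W221.ABC7.excB_finite B lam X, hC X hX⟩⟩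

end Pool.Agent.Results.MP_7aad9f_nt.ExceptionsEveryExponent
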