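import Mathlib
import Pool.Agent.W16.FX.Main

/-!
# MP_7aad9f_nt (abc conjecture): triples with a fixed term

For every fixed `a ≥ 1` and every `ε > 0` there is a constant `D` such that for all
`η ∈ [0, 1]` and all `X ≥ 1` the number of `b ≤ X` coprime to `a` with
`R(a b (a + b)) ≤ (a + b) ^ (1 + η)` is at most `D X ^ (7/16 + 5 η / 4 + ε)`.
The trivial exponent is `(1 + η) / 2`.
-/

namespace Pool.Agent.Results.MP_7aad9f_nt.FixedTerm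

theorem result :
    ∀ a : ℕ, 1 ≤ a → ∀ ε : ℝ, 0 < ε → ∃ D : ℝ, 0 < D ∧
      ∀ η : ℝ, 0 ≤ η → η ≤ 1 → ∀ X : ℕ, 1 ≤ X →
        (({b : ℕ | 1 ≤ b ∧ b ≤ X ∧ Nat.Coprime a b ∧
          ((∏ p ∈ (a * b * (a + b)).primeFactors, p : ℕ) : ℝ) ≤
            ((a + b : ℕ) : ℝ) ^ (1 + η)}.ncard : ℕ) : ℝ) ≤
          D * (X : ℝ) ^ (7 / 16 + 5 / 4 * η + ε) :=
  fun a ha ε hε => Pool.Agent.W16.FX.main a ha ε hε

end Pool.Agent.Results.MP_7aad9f_nt.FixedTerm
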