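import Pool.Agent.W347.RA.CNT
import Pool.Agent.W12.RA.CEL
import Pool.Agent.W88.RA.GP1
import Pool.Agent.W693.RA.GAP
import Pool.Agent.W12.RA.LTE
import Pool.Agent.W511.RA.PG2
import Pool.Agent.W584.RA.PIG
import Pool.Agent.W479.RA.PRT
import Pool.Agent.W576.RA.OM
import Pool.Agent.W12.RA.TR
import Pool.Agent.W291.RA.FL
import Pool.Agent.W300.RA.FH
import Pool.Agent.W804.RA.MAIN

/-! Radicals of abc triples: a power saving for all heights up to `exp (X ^ δ)`, `δ < 1/3`. -/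

namespace Pool.Agent.Results.MP_7aad9f_nt.RadicalsPowerSaving

theorem result : ∀ δ : ℝ, 0 < δ → δ < 1 / 3 → ∃ C : ℝ, ∀ X : ℝ, 1 ≤ X →
    (({R : ℕ | (R : ℝ) ≤ X ∧ ∃ a b c : ℕ, 0 < a ∧ 0 < b ∧ Nat.Coprime a b ∧ a + b = c ∧
      ∏ p ∈ (a * b * c).primeFactors, p = R ∧ Real.log c ≤ X ^ δ}.ncard : ℕ) : ℝ) ≤
      C * X ^ (1 - (1 - 3 * δ) / 11) :=
  Pool.Agent.W804.RA.tMAIN Pool.Agent.W576.RA.tOM Pool.Agent.W12.RA.tTR
    Pool.Agent.W479.RA.tPRT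
    (Pool.Agent.W291.RA.FL.tFL (Pool.Agent.W693.RA.GAP.tGAP
      (Pool.Agent.W12.RA.tCEL Pool.Agent.W347.RACNT.tCNT) Pool.Agent.W88.RA.tGP1))
    (Pool.Agent.W300.RA.FH.tFH (Pool.Agent.W584.RA.tPIG
      (Pool.Agent.W12.RA.tCEL Pool.Agent.W347.RACNT.tCNT)
      (Pool.Agent.W511.RA.PG2.tPG2 Pool.Agent.W12.RA.tLTE)))

end Pool.Agent.Results.MP_7aad9f_nt.RadicalsPowerSaving
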